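import Pool.Agent.N98.PJ.RelP

/-!
MP_19ffc6_ag: resolution of singularities of the quasi-projective varieties over a perfect field
`k` which are fibred over a surface, or over another variety with log smooth models, with a general
fibre of dimension `r` and degree at most `δ`, where `p > δ ^ 2 ^ r`.

The proof does not use resolution of singularities in characteristic zero. Let `E` be the function
field of the base and `K` that of the total space.

(1) Polynomials. By induction on `n`, finite families of polynomials of degree `≤ D` in `n`
variables over `E` become locally monomial (up to powers prime to `p`) on a smooth model of the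
field of rational functions if `p > D ^ 2 ^ (n - 1)`: the discriminants and resultants of the family
and of its derivatives with respect to one variable have degree `≤ D ^ 2` in the others; over a
model on which they are locally monomial, finitely many blowups with centres in the boundary and in
the divisors of the derivatives make the family locally monomial; these are controlled by
logarithmic derivations.

(2) Restriction of the model to a hypersurface of degree `≤ D` over `E`.

(3) Generic projections over `E`: the general fibre is birational to a hypersurface of degree `≤ δ`
by a general linear projection; the derivatives of the equation of the generic projection with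
respect to its coefficients express the coordinates as quotients of polynomials of degree `≤ δ`
in the coordinates of the hypersurface, so the affine linear forms are locally monomial on the
model of (1), (2).

(4) A principalization of the homogeneous coordinates gives a smooth proper model `Y` with a
birational morphism to `X`, by gluing at the generic point. Restriction to open subsets of `X`.

helper98; built on the library of the starting files (helpers 558, 973, 418, 968 and others).
-/

set_option autoImplicit false

open AlgebraicGeometry CategoryTheory Pool.Agent.W558 Pool.Agent.N98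

namespace Pool.Agent.Results.MP_19ffc6_ag.RelativeBoundedDegree

/-- The values at the point `x` of the polynomials over `E` of total degree at most `t`. -/
noncomputable def values (E : Type) {K : Type} [Field E] [Field K] [Algebra E K] {N : ℕ}
    (x : Fin N → K) (t : ℕ) : Submodule E K :=
  (MvPolynomial.restrictTotalDegree (Fin N) E t).map
    (MvPolynomial.aeval x : MvPolynomial (Fin N) E →ₐ[E] K).toLinearMap

/-- The variety in the affine space over `E` with the generic point `x` (the zeros of the
polynomials over `E` which vanish at `x`), whose function field is `K`, has dimension `r` and degree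
at most `δ`: its Hilbert function, the dimension over `E` of the space of the polynomial functions
of degree at most `t` on the variety, is at most `δ * t ^ r / r! + O (t ^ (r - 1))`. -/
def DegreeAtMost (E : Type) {K : Type} [Field E] [Field K] [Algebra E K] {N : ℕ}
    (x : Fin N → K) (r δ : ℕ) : Prop :=
  IntermediateField.adjoin E (Set.range x) = ⊤ ∧ Algebra.trdeg E K = r ∧
    ∃ C : ℕ, ∀ t : ℕ, r.factorial * Module.finrank E (values E x t) ≤ δ * (t + C) ^ r

/-- The element `z` is a product of (positive or negative) powers of affine linear forms
`a 0 + a 1 * x 1 + ... + a N * x N` with coefficients in `E`. -/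
def IsProductOfForms (E : Type) {K : Type} [Field E] [Field K] [Algebra E K] {N : ℕ}
    (x : Fin N → K) (z : K) : Prop :=
  ∃ (q : ℕ) (a : Fin q → E) (b : Fin q → Fin N → E) (e : Fin q → ℤ),
    z = ∏ i, (algebraMap E K (a i) + ∑ j, algebraMap E K (b i j) * x j) ^ e i

/-- The homomorphism `ξ` is a homogeneous generic point of the projective variety `Proj S` over
`k`, where `S = ⨁ 𝒜 t`, and `K` is the function field: `ξ` is injective on the homogeneous parts of
`S`, and the elements of `K` are the quotients of the values at `ξ` of homogeneous elements of `S`
of the same degree. -/
structure IsGenericPoint {k S K : Type} [Field k] [CommRing S] [Algebra k S]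
    (𝒜 : ℕ → Submodule k S) [Field K] [Algebra k K] (ξ : S →ₐ[k] K) : Prop where
  injective : ∀ n, ∀ s ∈ 𝒜 n, ξ s = 0 → s = 0
  fractions : ∀ z : K, ∃ n, ∃ s ∈ 𝒜 n, ∃ t ∈ 𝒜 n, ξ t ≠ 0 ∧ z = ξ s / ξ t

/-- Let `k` be a perfect field of characteristic `p`. Let `E` be the function field of a smooth
projective surface over `k`, or an infinite extension of `k` such that any finite family of nonzero
elements of `E` has its zeros and poles in a simple normal crossings divisor on some smooth
projective variety with function field `E` (`HasLogModels`). Let `x` be the generic point of an
affine variety over `E` of dimension `r` and degree at most `δ`, with function field `K`, where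
`δ ^ 2 ^ r < p`. Let `X = Proj S` be a projective variety over `k` with function field `K`, where
`S ≠ k` is a graded domain over `k` generated by finitely many elements `b 1, ..., b m` of degree
one, and suppose that the homogeneous coordinates `ξ (b 1), ..., ξ (b m)` of the generic point of
`X` are products of powers of affine linear forms in `x` with coefficients in `E`. Then each
nonempty open subscheme `U` of `X` has a resolution of singularities.

For example, `X` can be an arbitrary closed subvariety of the product of a projective surface
`B ⊆ ℙ ^ M` and of a projective space `ℙ ^ N` (in the Segre embedding) whose general fibre over `B`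
is of dimension `r` and of degree at most `δ` in `ℙ ^ N`. -/
theorem result (p : ℕ) [Fact p.Prime] (k E K S : Type) [Field k] [PerfectField k] [CharP k p]
    [Field E] [Algebra k E]
    (hE : (Algebra.trdeg k E = 2 ∧ HasModel k E) ∨ (Infinite E ∧ HasLogModels k E))
    [Field K] [Algebra E K] [Algebra k K] [IsScalarTower k E K]
    (N r δ : ℕ) (x : Fin N → K) (hx : DegreeAtMost E x r δ) (hp : δ ^ 2 ^ r < p)
    [CommRing S] [IsDomain S] [Algebra k S] (𝒜 : ℕ → Submodule k S) [GradedAlgebra 𝒜]
    (hS : Algebra.adjoin k (𝒜 1 : Set S) = ⊤) (hS1 : 𝒜 1 ≠ ⊥)
    (m : ℕ) (b : Fin m → S) (hb : Submodule.span k (Set.range b) = 𝒜 1)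
    (ξ : S →ₐ[k] K) (hξ : IsGenericPoint 𝒜 ξ) (hform : ∀ i, IsProductOfForms E x (ξ (b i)))
    (U : (Proj 𝒜).Opens) (hU : (U : Set (Proj 𝒜)).Nonempty) :
    IsResolvableVariety (k := k) (X := U.toScheme)
      (U.ι ≫ Proj.toSpecZero 𝒜 ≫ Spec.map (CommRingCat.ofHom (algebraMap k (𝒜 0)))) := by
  classical
  obtain ⟨htop, htr, C, hC⟩ := hx
  have hinf : Infinite E := by
    rcases hE with ⟨h2, -⟩ | ⟨h, -⟩
    · exact infinite_of_trdeg h2
    · exact h
  have hE' : Pool.Agent.W418.LCI.HasLM k E := by
    rcases hE with ⟨h2, hE⟩ | ⟨-, hE⟩
    · exact Pool.Agent.W418.LCI.hasLM_of_surface k E h2 hE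
    · exact Pool.Agent.W418.LCI.hasLM_of_models k E hE
  choose q a c e hse using hform
  let F : (Σ j, Fin (q j)) → K := fun i =>
    algebraMap E K (a i.1 i.2) + ∑ j, algebraMap E K (c i.1 i.2 j) * x j
  obtain ⟨T, I, hT, hI, M, hFr, hM⟩ := rel_models (k := k) x hE' htop r htr δ C hC
    (factorial_ne_zero_of_lt p (Fact.out : p.Prime) hp) {i : Σ j, Fin (q j) // F i ≠ 0}
    (fun i => a i.1.1 i.1.2) (fun i => c i.1.1 i.1.2) (fun i => i.2)
  refine PJ.isResolvable_open_of_isBr 𝒜 hS ξ hξ.injective hξ.fractions b hb M hFr
    (fun j hj => ?_) hS1 U hU
  rw [hse j] at hj ⊢
  rw [Finset.prod_ne_zero_iff] at hj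
  refine IsBr.prod _ _ fun i _ => ?_
  by_cases h0 : F ⟨j, i⟩ = 0
  · have h1 : e j i = 0 := by
      by_contra h2
      apply hj i (Finset.mem_univ i)
      change F ⟨j, i⟩ ^ e j i = 0
      rw [h0, zero_zpow _ h2]
    rw [h1, zpow_zero]
    exact IsB.one.br
  · exact (hM ⟨⟨j, i⟩, h0⟩).zpow _

end Pool.Agent.Results.MP_19ffc6_ag.RelativeBoundedDegree
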