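import Pool.Agent.N98.Abs
import Pool.Agent.W558.Var

/-!
MP_19ffc6_ag: resolution of singularities of the affine varieties of dimension `d` and degree at
most `δ` over a perfect field of characteristic `p > δ ^ 2 ^ (d - 2)`.

The proof does not use resolution of singularities in characteristic zero:

(1) Polynomials. Let `E` be a field such that finite families of elements of `E` are locally
monomial on suitable smooth models of `E` (here `E = k(x, y)`, by blowing up points). By induction
on `n`, finite families of polynomials of degree `≤ D` in `n` variables over `E` become locally
monomial (up to powers prime to `p`) on a smooth model of the field of rational functions if `p >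
D ^ 2 ^ (n - 1)`: the discriminants and resultants of the family and of its derivatives with respect
to one variable have degree `≤ D ^ 2` in the others; over a model on which they are locally
monomial, finitely many blowups with centres in the boundary and in the divisors of the derivatives
make the family locally monomial; these are controlled by logarithmic derivations (Jung's
method, without extensions of the field).

(2) Restriction of the model to a hypersurface of degree `≤ D`.

(3) Generic projections: a variety of degree `δ` is birational to a hypersurface of degree `≤ δ`
by a general linear projection; the derivatives of the equation of the generic projection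
with respect to its coefficients express the coordinates as quotients of polynomials of degree
`≤ δ` in the coordinates of the hypersurface, so the coordinates are locally monomial on the
model of (1), (2). The degree of the equation is bounded with the Hilbert function.

(4) A toroidal modification and a restriction of the model give a resolution.

helper98; built on the library of the starting files (helpers 558, 973, 418 and others).
-/

set_option autoImplicit false

open AlgebraicGeometry CategoryTheory Pool.Agent.W558 Pool.Agent.N98

universe u

namespace Pool.Agent.Results.MP_19ffc6_ag.AffineBoundedDegree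

/-- The values at the point `x` of the polynomials over `k` of total degree at most `t`. -/
noncomputable def values (k : Type u) {K : Type u} [Field k] [Field K] [Algebra k K] {N : ℕ}
    (x : Fin N → K) (t : ℕ) : Submodule k K :=
  (MvPolynomial.restrictTotalDegree (Fin N) k t).map
    (MvPolynomial.aeval x : MvPolynomial (Fin N) k →ₐ[k] K).toLinearMap

/-- The variety in the affine space over `k` with the generic point `x` (the zeros of the
polynomials which vanish at `x`), whose function field is `K`, has dimension `d` and degree at
most `δ`: its Hilbert function, the dimension of the space of the polynomial functions of degree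
at most `t` on the variety, is at most `δ * t ^ d / d! + O (t ^ (d - 1))`. -/
def DegreeAtMost (k : Type u) {K : Type u} [Field k] [Field K] [Algebra k K] {N : ℕ}
    (x : Fin N → K) (d δ : ℕ) : Prop :=
  IntermediateField.adjoin k (Set.range x) = ⊤ ∧ Algebra.trdeg k K = d ∧
    ∃ C : ℕ, ∀ t : ℕ, d.factorial * Module.finrank k (values k x t) ≤ δ * (t + C) ^ d

/-- The element `z` is a product of (positive or negative) powers of affine linear forms
`a 0 + a 1 * x 1 + ... + a N * x N` with coefficients in `k`. -/
def IsProductOfForms (k : Type u) {K : Type u} [Field k] [Field K] [Algebra k K] {N : ℕ}
    (x : Fin N → K) (z : K) : Prop :=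
  ∃ (q : ℕ) (a : Fin q → k) (b : Fin q → Fin N → k) (e : Fin q → ℤ),
    z = ∏ i, (algebraMap k K (a i) + ∑ j, algebraMap k K (b i j) * x j) ^ e i

/-- Let `k` be a perfect field of characteristic `p` and let `x = (x 1, ..., x N)` be the generic
point of a variety in the affine space over `k`, with function field `K`, of dimension `d ≥ 2` and
degree at most `δ`, where `δ ^ 2 ^ (d - 2) < p`. Let `A` be a finitely generated `k`-algebra with
fraction field `K` which is integral over the subalgebra generated by finitely many elements
which are products of powers of affine linear forms in the `x j` over `k`. Then the variety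
`Spec A` has a resolution of singularities.

For example `A` can be `k[x 1, ..., x N]`, the coordinate ring of an arbitrary affine variety of
dimension `d` and degree at most `δ`, or its normalization. -/
theorem result (p : ℕ) [Fact p.Prime] (k K : Type u) [Field k] [PerfectField k] [CharP k p]
    [Field K] [Algebra k K] (N d δ : ℕ) (x : Fin N → K) (hx : DegreeAtMost k x d δ) (hd : 2 ≤ d)
    (hp : δ ^ 2 ^ (d - 2) < p)
    (A : Type u) [CommRing A] [IsDomain A] [Algebra k A] [Algebra.FiniteType k A] [Algebra A K]
    [IsScalarTower k A K] [IsFractionRing A K] (m : ℕ) (s : Fin m → A)
    (hs : ∀ j, IsProductOfForms k x (algebraMap A K (s j)))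
    (hA : ∀ a : A, IsIntegral (Algebra.adjoin k (Set.range s)) a) :
    IsResolvableVariety (X := Spec (CommRingCat.of A))
      (Spec.map (CommRingCat.ofHom (algebraMap k A))) := by
  classical
  obtain ⟨htop, htr, C, hC⟩ := hx
  have hinj : Function.Injective (algebraMap A K) := IsFractionRing.injective A K
  choose q a b e hse using hs
  let F : (Σ j, Fin (q j)) → K := fun i =>
    algebraMap k K (a i.1 i.2) + ∑ j, algebraMap k K (b i.1 i.2 j) * x j
  obtain ⟨T, I, hT, hI, M, hFr, hM⟩ := abs_models x htop d hd htr δ C hC
    (factorial_ne_zero_of_lt p (Fact.out : p.Prime) hp) {i : Σ j, Fin (q j) // F i ≠ 0}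
    (fun i => a i.1.1 i.1.2) (fun i => b i.1.1 i.1.2) (fun i => i.2)
  refine isResolvableVariety_spec (hasResolution_of_isBr M hFr A s (fun j hj => ?_) hA)
  rw [hse j]
  have hne : algebraMap A K (s j) ≠ 0 := fun h0 => hj (hinj (h0.trans (map_zero _).symm))
  rw [hse j, Finset.prod_ne_zero_iff] at hne
  refine IsBr.prod _ _ fun i _ => ?_
  by_cases h0 : F ⟨j, i⟩ = 0
  · have h1 : e j i = 0 := by
      by_contra h2
      apply hne i (Finset.mem_univ i)
      change F ⟨j, i⟩ ^ e j i = 0
      rw [h0, zero_zpow _ h2]
    rw [h1, zpow_zero]
    exact IsB.one.br
  · exact (hM ⟨⟨j, i⟩, h0⟩).zpow _

end Pool.Agent.Results.MP_19ffc6_ag.AffineBoundedDegree
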