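import Pool.Agent.N98.Abs
import Pool.Agent.W558.WT.LU

/-!
MP_3029eb_ag: local uniformization, at all valuations, of the local rings of the affine varieties
of dimension `d` and degree at most `δ` over a perfect field of characteristic
`p > δ ^ 2 ^ (d - 2)`, and of their normalizations.

The proof does not use resolution of singularities in characteristic zero: see
MP_19ffc6_ag.AffineBoundedDegree.

helper98; built on the library of the starting files (helpers 558, 973, 418, 22 and others).
-/

set_option autoImplicit false

open Pool.Agent.W558 Pool.Agent.N98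

namespace Pool.Agent.Results.MP_3029eb_ag.BoundedDegreeLU

/-- The values at the point `x` of the polynomials over `k` of total degree at most `t`. -/
noncomputable def values (k : Type) {K : Type} [Field k] [Field K] [Algebra k K] {N : ℕ}
    (x : Fin N → K) (t : ℕ) : Submodule k K :=
  (MvPolynomial.restrictTotalDegree (Fin N) k t).map
    (MvPolynomial.aeval x : MvPolynomial (Fin N) k →ₐ[k] K).toLinearMap

/-- The variety in the affine space over `k` with the generic point `x` (the zeros of the
polynomials which vanish at `x`), whose function field is `K`, has dimension `d` and degree at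
most `δ`: its Hilbert function, the dimension of the space of the polynomial functions of degree
at most `t` on the variety, is at most `δ * t ^ d / d! + O (t ^ (d - 1))`. -/
def DegreeAtMost (k : Type) {K : Type} [Field k] [Field K] [Algebra k K] {N : ℕ}
    (x : Fin N → K) (d δ : ℕ) : Prop :=
  IntermediateField.adjoin k (Set.range x) = ⊤ ∧ Algebra.trdeg k K = d ∧
    ∃ C : ℕ, ∀ t : ℕ, d.factorial * Module.finrank k (values k x t) ≤ δ * (t + C) ^ d

/-- The element `z` is a product of (positive or negative) powers of affine linear forms
`a 0 + a 1 * x 1 + ... + a N * x N` with coefficients in `k`. -/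
def IsProductOfForms (k : Type) {K : Type} [Field k] [Field K] [Algebra k K] {N : ℕ}
    (x : Fin N → K) (z : K) : Prop :=
  ∃ (q : ℕ) (a : Fin q → k) (b : Fin q → Fin N → k) (e : Fin q → ℤ),
    z = ∏ i, (algebraMap k K (a i) + ∑ j, algebraMap k K (b i j) * x j) ^ e i

/-- The local domain `R` admits local uniformization: for every valuation ring `V` of the fraction
field `K` of `R` centred on `R` there is a finitely generated `R`-algebra `B` in `V` whose
localization at the centre `P` of `V` is regular. -/
def AdmitsLocalUniformization (R : Type) [CommRing R] : Prop :=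
  ∀ (K : Type) [Field K] [Algebra R K] [IsFractionRing R K] (V : ValuationSubring K),
    (∀ r : R, algebraMap R K r ∈ V) →
    (∀ r : R, r ∈ nonunits R ↔ V.valuation (algebraMap R K r) < 1) →
    ∃ B : Subalgebra R K, B.FG ∧ (∀ b : B, (b : K) ∈ V) ∧
      ∃ P : Ideal B, ∃ (_ : P.IsPrime),
        (∀ b : B, b ∈ P ↔ V.valuation (b : K) < 1) ∧
        IsRegularLocalRing (Localization.AtPrime P)

/-- Let `k` be a perfect field of characteristic `p` and let `x = (x 1, ..., x N)` be the generic
point of a variety in the affine space over `k`, with function field `K`, of dimension `d ≥ 2` and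
degree at most `δ`, where `δ ^ 2 ^ (d - 2) < p`. Let `A` be a finitely generated `k`-algebra with
fraction field `K` which is integral over the subalgebra generated by finitely many elements
which are products of powers of affine linear forms in the `x j` over `k` (for example
`A = k[x 1, ..., x N]`, the coordinate ring of an arbitrary affine variety of dimension `d` and
degree at most `δ`, or its normalization). Then the localization `R` of `A` at any prime ideal `q`
admits local uniformization. -/
theorem result (p : ℕ) [Fact p.Prime] (k K : Type) [Field k] [PerfectField k] [CharP k p]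
    [Field K] [Algebra k K] (N d δ : ℕ) (x : Fin N → K) (hx : DegreeAtMost k x d δ) (hd : 2 ≤ d)
    (hp : δ ^ 2 ^ (d - 2) < p)
    (A : Type) [CommRing A] [IsDomain A] [Algebra k A] [Algebra.FiniteType k A] [Algebra A K]
    [IsScalarTower k A K] [IsFractionRing A K] (m : ℕ) (s : Fin m → A)
    (hs : ∀ j, IsProductOfForms k x (algebraMap A K (s j)))
    (hA : ∀ a : A, IsIntegral (Algebra.adjoin k (Set.range s)) a)
    (q : Ideal A) [q.IsPrime] (R : Type) [CommRing R] [Algebra A R]
    [IsLocalization.AtPrime R q] : AdmitsLocalUniformization R := by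
  classical
  obtain ⟨htop, htr, C, hC⟩ := hx
  have hinj : Function.Injective (algebraMap A K) := IsFractionRing.injective A K
  choose q' a b e hse using hs
  let F : (Σ j, Fin (q' j)) → K := fun i =>
    algebraMap k K (a i.1 i.2) + ∑ j, algebraMap k K (b i.1 i.2 j) * x j
  obtain ⟨T, I, hT, hI, M, hFr, hM⟩ := abs_models x htop d hd htr δ C hC
    (factorial_ne_zero_of_lt p (Fact.out : p.Prime) hp) {i : Σ j, Fin (q' j) // F i ≠ 0}
    (fun i => a i.1.1 i.1.2) (fun i => b i.1.1 i.1.2) (fun i => i.2)
  obtain ⟨T', I', hT', hI', ⟨M'⟩⟩ := LM_of_isBr M hFr A s (fun j hj => by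
    rw [hse j]
    have hne : algebraMap A K (s j) ≠ 0 := fun h0 => hj (hinj (h0.trans (map_zero _).symm))
    rw [hse j, Finset.prod_ne_zero_iff] at hne
    refine IsBr.prod _ _ fun i _ => ?_
    by_cases h0 : F ⟨j, i⟩ = 0
    · have h1 : e j i = 0 := by
        by_contra h2
        apply hne i (Finset.mem_univ i)
        change F ⟨j, i⟩ ^ e j i = 0
        rw [h0, zero_zpow _ h2]
      rw [h1, zpow_zero]
      exact IsB.one.br
    · exact (hM ⟨⟨j, i⟩, h0⟩).zpow _) hA
  intro K2 _ _ _ W hV1 hV2
  have hR' : IsLocalRing R := IsLocalization.AtPrime.isLocalRing R q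
  obtain ⟨B', h1, h2, P', hP, h3, h4, h5⟩ := Pool.Agent.W558.WT.uniformized_of_LM2 M' q (R := R)
    (K := K2) W hV1 (fun r => (IsLocalRing.mem_maximalIdeal r).trans (hV2 r))
  exact ⟨B', h1, h2, P', hP, h3, (IsRegularLocalRing.iff_finrank_cotangentSpace _).2 h5.symm⟩

end Pool.Agent.Results.MP_3029eb_ag.BoundedDegreeLU
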